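import Pool.Graph.R_pool_sql_team_seeded_3997aac3.Q260.OE.Stm

set_option autoImplicit false

/-!
# Project OE: integrability of the error and the change of variables (jobs R0 and XW)
-/

namespace Pool.Agent.H681.OE

open Complex MeasureTheory Filter Topology Set
open Pool.Agent.Q286.BD (cl mz dif JJ difR JR S_intR)
open Pool.Agent.Q260.OE

theorem difR_meas (a : ℝ →₀ ℝ) : Measurable (difR a) := by
  unfold difR Finsupp.sum
  refine Measurable.sub ?_ ?_
  · exact Measurable.ite measurableSet_Iic measurable_const measurable_const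
  · refine Finset.measurable_fun_sum _ fun θ _ => ?_
    exact (measurable_const.mul (measurable_fract.comp (measurable_const.div measurable_id)))

theorem difR_bdd (a : ℝ →₀ ℝ) (x : ℝ) : |difR a x| ≤ 1 + a.sum fun _ c => |c| := by
  unfold difR Finsupp.sum
  refine le_trans (abs_sub _ _) ?_
  refine add_le_add ?_ ?_
  · split_ifs <;> simp
  · refine le_trans (Finset.abs_sum_le_sum_abs _ _) (Finset.sum_le_sum fun θ _ => ?_)
    rw [abs_mul]
    refine mul_le_of_le_one_right (abs_nonneg _) ?_
    rw [abs_of_nonneg (Int.fract_nonneg _)]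
    exact (Int.fract_lt_one _).le

theorem difR_large (a : ℝ →₀ ℝ) (ha : ∀ θ ∈ a.support, 0 < θ ∧ θ ≤ 1) {x : ℝ} (hx : 1 < x) :
    difR a x = -(a.sum fun θ c => c * θ) / x := by
  unfold difR Finsupp.sum
  rw [if_neg (by linarith), zero_sub, neg_div, Finset.sum_div]
  congr 1
  refine Finset.sum_congr rfl fun θ hθ => ?_
  obtain ⟨h1, h2⟩ := ha θ hθ
  have h3 : Int.fract (θ / x) = θ / x := by
    rw [Int.fract_eq_self]
    refine ⟨by positivity, ?_⟩
    rw [div_lt_one (by linarith)]
    linarith
  show a θ * Int.fract (θ / x) = a θ * θ / x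
  rw [h3]; ring

theorem intR : S_intR := by
  intro a ha
  rw [← Ioc_union_Ioi_eq_Ioi (zero_le_one (α := ℝ))]
  refine IntegrableOn.union ?_ ?_
  · have hfin : volume (Ioc (0 : ℝ) 1) < ⊤ := by simp
    refine Measure.integrableOn_of_bounded (M := (1 + a.sum fun _ c => |c|) ^ 2) hfin.ne
      ((difR_meas a).pow_const 2).aestronglyMeasurable ?_
    refine Eventually.of_forall fun x => ?_
    rw [Real.norm_eq_abs, abs_of_nonneg (sq_nonneg _), ← sq_abs]
    exact pow_le_pow_left₀ (abs_nonneg _) (difR_bdd a x) 2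
  · have h : IntegrableOn (fun x : ℝ => (a.sum fun θ c => c * θ) ^ 2 * x ^ (-2 : ℝ)) (Ioi 1) :=
      (integrableOn_Ioi_rpow_of_lt (by norm_num) one_pos).const_mul _
    refine h.congr_fun (fun x hx => ?_) measurableSet_Ioi
    have hx1 : (1 : ℝ) < x := hx
    show _ = difR a x ^ 2
    have e : x ^ (-2 : ℝ) = (x ^ 2)⁻¹ := by
      rw [Real.rpow_neg (by linarith), Real.rpow_two]
    rw [difR_large a ha hx1]
    show (a.sum fun θ c => c * θ) ^ 2 * x ^ (-2 : ℝ) = _
    rw [e, div_pow, neg_sq]
    rfl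

theorem hasDeriv_expneg (w : ℝ) : HasDerivAt (fun w : ℝ => Real.exp (-w)) (-Real.exp (-w)) w := by
  have := (hasDerivAt_neg w).exp
  simpa using this

theorem inj_expneg : Function.Injective (fun w : ℝ => Real.exp (-w)) := by
  intro x y h
  have := Real.exp_injective h
  linarith

theorem cov (s : Set ℝ) (hs : MeasurableSet s) (f : ℝ → ℝ) :
    ∫ x in (fun w : ℝ => Real.exp (-w)) '' s, f x = ∫ w in s, f (Real.exp (-w)) * Real.exp (-w) := by
  rw [integral_image_eq_integral_abs_deriv_smul hs (fun w _ => (hasDeriv_expneg w).hasDerivWithinAt)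
    inj_expneg.injOn]
  refine setIntegral_congr_fun hs fun w _ => ?_
  simp only [smul_eq_mul, abs_neg, abs_of_pos (Real.exp_pos _)]
  ring

theorem img_univ : (fun w : ℝ => Real.exp (-w)) '' univ = Ioi 0 := by
  ext x
  simp only [image_univ, mem_range, mem_Ioi]
  constructor
  · rintro ⟨w, rfl⟩; exact Real.exp_pos _
  · intro hx
    exact ⟨-Real.log x, by rw [neg_neg, Real.exp_log hx]⟩

theorem img_Ico (s t : ℝ) : (fun w : ℝ => Real.exp (-w)) '' Ico s t = Ioc (Real.exp (-t)) (Real.exp (-s)) := by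
  ext x
  simp only [mem_image, mem_Ico, mem_Ioc]
  constructor
  · rintro ⟨w, ⟨h1, h2⟩, rfl⟩
    exact ⟨Real.exp_lt_exp.2 (by linarith), Real.exp_le_exp.2 (by linarith)⟩
  · rintro ⟨h1, h2⟩
    have hx : 0 < x := lt_trans (Real.exp_pos _) h1
    refine ⟨-Real.log x, ⟨?_, ?_⟩, by rw [neg_neg, Real.exp_log hx]⟩
    · have := Real.log_le_log hx h2
      rw [Real.log_exp] at this; linarith
    · have := Real.log_lt_log (Real.exp_pos _) h1
      rw [Real.log_exp] at this; linarith

theorem img_Iio (s : ℝ) : (fun w : ℝ => Real.exp (-w)) '' Iio s = Ioi (Real.exp (-s)) := by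
  ext x
  simp only [mem_image, mem_Iio, mem_Ioi]
  constructor
  · rintro ⟨w, h1, rfl⟩
    exact Real.exp_lt_exp.2 (by linarith)
  · intro h1
    have hx : 0 < x := lt_trans (Real.exp_pos _) h1
    refine ⟨-Real.log x, ?_, by rw [neg_neg, Real.exp_log hx]⟩
    have := Real.log_lt_log (Real.exp_pos _) h1
    rw [Real.log_exp] at this; linarith

theorem img_Ici (s : ℝ) : (fun w : ℝ => Real.exp (-w)) '' Ici s = Ioc 0 (Real.exp (-s)) := by
  ext x
  simp only [mem_image, mem_Ici, mem_Ioc]
  constructor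
  · rintro ⟨w, h1, rfl⟩
    exact ⟨Real.exp_pos _, Real.exp_le_exp.2 (by linarith)⟩
  · rintro ⟨hx, h2⟩
    refine ⟨-Real.log x, ?_, by rw [neg_neg, Real.exp_log hx]⟩
    have := Real.log_le_log hx h2
    rw [Real.log_exp] at this; linarith

theorem t_XW : S_XW := by
  refine ⟨fun a ha => ?_, fun f s t _ => ?_, fun f s => ?_, fun f s => ?_⟩
  · have h := intR a ha
    constructor
    · have h2 := (integrableOn_image_iff_integrableOn_abs_deriv_smul MeasurableSet.univ
        (fun w _ => (hasDeriv_expneg w).hasDerivWithinAt) inj_expneg.injOn (fun x : ℝ => difR a x ^ 2)).1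
        (by rw [img_univ]; exact h)
      rw [integrableOn_univ] at h2
      refine h2.congr (Eventually.of_forall fun w => ?_)
      simp only [smul_eq_mul, abs_neg, abs_of_pos (Real.exp_pos _), De]
      ring
    · have h2 := cov univ MeasurableSet.univ (fun x : ℝ => difR a x ^ 2)
      rw [img_univ, setIntegral_univ] at h2
      exact h2.symm
  · rw [← img_Ico, cov _ measurableSet_Ico]
  · rw [← img_Iio, cov _ measurableSet_Iio]
  · rw [← img_Ici, cov _ measurableSet_Ici]

end Pool.Agent.H681.OE
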