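import Pool.Agent.H681.OE.CR2
import Pool.Graph.R_pool_sql_team_seeded_3997aac3.Q38.OE.CR3a
import Pool.Graph.R_pool_sql_team_seeded_3997aac3.Q237.OE.CR1
import Pool.Graph.R_pool_sql_team_seeded_3997aac3.Q296.GM.Rh

/-!
# Project OE, job CR3: the mean square of the damped transform (helper681)
-/

set_option autoImplicit false

namespace Pool.Agent.H681.OE

open Complex Filter Topology Set MeasureTheory Metric
open Pool.Agent.Q286.BD (cl mz)
open Pool.Agent.Q260.OE (Go Nz GS S_CR1 S_CR2 S_CR3)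
open Pool.Agent.Q38.OE (Lo Lo_ge W1 W2 W1_pos W2_pos W1_comp int_W2 int_bound)

theorem Go_countable : Countable Go := by
  have h : (Go : Set ℝ) ⊆ ⋃ k : ℤ, ((Go : Set ℝ) ∩ Icc (k : ℝ) (k + 1)) := by
    intro g hg
    exact Set.mem_iUnion.2 ⟨⌊g⌋, hg, Int.floor_le g, (Int.lt_floor_add_one g).le⟩
  have h2 : (⋃ k : ℤ, ((Go : Set ℝ) ∩ Icc (k : ℝ) (k + 1))).Countable := by
    obtain ⟨K0, hK⟩ := Pool.Agent.H575.BD.cnt
    exact Set.countable_iUnion fun k => ((hK k).1).countable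
  exact (h2.mono h).to_subtype

/-- the multiplicities of the zeros in an interval -/
theorem block_mult : ∃ K : ℝ, 0 < K ∧ ∀ (T : ℝ) (S : Finset ℝ), (∀ g ∈ S, riemannZeta (cl g) = 0 ∧ T ≤ g ∧ g ≤ T + 1) →
    ∑ g ∈ S, (mz (cl g) : ℝ) ≤ K * Real.log (|T| + 2) := by
  classical
  obtain ⟨K, hK, hloc⟩ := Pool.Agent.H575.BD.local_mult
  refine ⟨K, hK, fun T S hS => ?_⟩
  have h1 := hloc T (S.image cl) (by
    intro s hs
    obtain ⟨g, hg, rfl⟩ := Finset.mem_image.1 hs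
    obtain ⟨h0, h1, h2⟩ := hS g hg
    refine ⟨h0, ?_, ?_, ?_, ?_⟩
    · rw [cl_re']; norm_num
    · rw [cl_re']; norm_num
    · rw [cl_im']; exact h1
    · rw [cl_im']; exact h2)
  rwa [Finset.sum_image Pool.Agent.H575.BD.cl_inj.injOn] at h1

/-- the multiplicities of the zeros near `t` -/
theorem near_mult : ∃ K : ℝ, 0 < K ∧ ∀ (t : ℝ) (S : Finset ℝ), (∀ g ∈ S, riemannZeta (cl g) = 0 ∧ |g - t| ≤ 1) →
    ∑ g ∈ S, (mz (cl g) : ℝ) ≤ K * Lo t := by
  classical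
  obtain ⟨K, hK, hb⟩ := block_mult
  refine ⟨2 * K, by positivity, fun t S hS => ?_⟩
  have ht := abs_nonneg t
  rw [← Finset.sum_filter_add_sum_filter_not S (fun g => g ≤ t)]
  have h1 := hb (t - 1) (S.filter (fun g => g ≤ t)) (by
    intro g hg
    rw [Finset.mem_filter] at hg
    obtain ⟨a1, a2⟩ := hS g hg.1
    rw [abs_le] at a2
    exact ⟨a1, by linarith [a2.1], by linarith [hg.2]⟩)
  have h2 := hb t (S.filter (fun g => ¬ g ≤ t)) (by
    intro g hg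
    rw [Finset.mem_filter, not_le] at hg
    obtain ⟨a1, a2⟩ := hS g hg.1
    rw [abs_le] at a2
    exact ⟨a1, hg.2.le, by linarith [a2.2]⟩)
  have h3 : Real.log (|t - 1| + 2) ≤ Lo t := by
    unfold Lo
    have h4 := abs_sub t 1
    rw [abs_one] at h4
    exact Real.log_le_log (by positivity) (by linarith)
  have h4 : Real.log (|t| + 2) ≤ Lo t := by
    unfold Lo
    exact Real.log_le_log (by positivity) (by linarith)
  have h5 := mul_le_mul_of_nonneg_left h3 hK.le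
  have h6 := mul_le_mul_of_nonneg_left h4 hK.le
  linarith

theorem summable_W1 : Summable (fun g : Go => (mz (cl g) : ℝ) * W1 g) := by
  classical
  obtain ⟨K, hK, hloc⟩ := block_mult
  have hB := Pool.Agent.H575.BD.maj_summable (K * 108)
  refine summable_of_sum_le (c := ∑' k : ℤ, K * 108 * Real.log (|(k : ℝ)| + 2) ^ 2 / (1 + |(k : ℝ)|) ^ 2)
    (fun g => mul_nonneg (Nat.cast_nonneg _) (W1_pos _).le) fun S => ?_
  set fl : Go → ℤ := fun g => ⌊(g : ℝ)⌋ with hfl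
  rw [← Finset.sum_fiberwise_of_maps_to (s := S) (t := S.image fl) (g := fl)
    (fun ρ hρ => Finset.mem_image_of_mem fl hρ)]
  refine le_trans (Finset.sum_le_sum fun k _ => ?_) (hB.sum_le_tsum _ (fun k _ => by positivity))
  set Sk := S.filter (fun ρ => fl ρ = k) with hSk
  have hmemk : ∀ ρ ∈ Sk, fl ρ = k := fun ρ hρ => (Finset.mem_filter.1 hρ).2
  have h1 : ∑ ρ ∈ Sk, (mz (cl ρ) : ℝ) ≤ K * Real.log (|(k : ℝ)| + 2) := by
    have h2 := hloc k (Sk.map (Function.Embedding.subtype _)) (by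
      intro s hs
      rw [Finset.mem_map] at hs
      obtain ⟨ρ, hρ, rfl⟩ := hs
      have h3 := hmemk ρ hρ
      refine ⟨ρ.2, ?_, ?_⟩
      · rw [← h3]; exact Int.floor_le _
      · rw [← h3]; exact (Int.lt_floor_add_one _).le)
    rw [Finset.sum_map] at h2
    exact h2
  have hx0 : 0 ≤ |(k : ℝ)| := abs_nonneg _
  have hl0 : 0 ≤ Real.log (|(k : ℝ)| + 2) := Real.log_nonneg (by linarith)
  have h3 : ∀ ρ ∈ Sk, W1 ρ ≤ 108 * Real.log (|(k : ℝ)| + 2) / (1 + |(k : ℝ)|) ^ 2 := by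
    intro ρ hρ
    have h4 := hmemk ρ hρ
    have h5 : (k : ℝ) ≤ ρ := by rw [← h4]; exact Int.floor_le _
    have h6 : (ρ : ℝ) ≤ k + 1 := by rw [← h4]; exact (Int.lt_floor_add_one _).le
    have h7 : |(ρ : ℝ) - k| ≤ 1 := by rw [abs_le]; constructor <;> linarith
    have h8 : |(ρ : ℝ)| ≤ |(k : ℝ)| + 1 := by
      have := abs_sub_abs_le_abs_sub (ρ : ℝ) k
      linarith
    have h9 : |(k : ℝ)| ≤ |(ρ : ℝ)| + 1 := by
      have := abs_sub_abs_le_abs_sub (k : ℝ) ρ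
      rw [abs_sub_comm] at this
      linarith
    have h10 : Lo ρ ≤ 3 * Real.log (|(k : ℝ)| + 2) := by
      unfold Lo
      have e : Real.log ((|(k : ℝ)| + 2) ^ 3) = 3 * Real.log (|(k : ℝ)| + 2) := by
        rw [Real.log_pow]; norm_num
      rw [← e]
      apply Real.log_le_log (by positivity)
      nlinarith [pow_nonneg hx0 3, pow_nonneg hx0 2]
    have h11 : (1 + |(k : ℝ)|) ^ 2 ≤ 36 * (1 / 4 + (ρ : ℝ) ^ 2) := by
      rw [← sq_abs (ρ : ℝ)]
      have h12 := abs_nonneg (ρ : ℝ)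
      have h13 : (1 + |(k : ℝ)|) ^ 2 ≤ (|(ρ : ℝ)| + 2) ^ 2 := pow_le_pow_left₀ (by linarith) (by linarith) 2
      nlinarith [sq_nonneg (|(ρ : ℝ)| - 1), sq_nonneg |(ρ : ℝ)|]
    unfold W1
    rw [div_le_div_iff₀ (by positivity) (by positivity)]
    have := Lo_ge (ρ : ℝ)
    calc Lo ρ * (1 + |(k : ℝ)|) ^ 2 ≤ (3 * Real.log (|(k : ℝ)| + 2)) * (36 * (1 / 4 + (ρ : ℝ) ^ 2)) :=
          mul_le_mul h10 h11 (by positivity) (by positivity)
      _ = _ := by ring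
  calc ∑ ρ ∈ Sk, (mz (cl ρ) : ℝ) * W1 ρ ≤
        ∑ ρ ∈ Sk, (mz (cl ρ) : ℝ) * (108 * Real.log (|(k : ℝ)| + 2) / (1 + |(k : ℝ)|) ^ 2) :=
        Finset.sum_le_sum fun ρ hρ => mul_le_mul_of_nonneg_left (h3 ρ hρ) (Nat.cast_nonneg _)
    _ = (∑ ρ ∈ Sk, (mz (cl ρ) : ℝ)) * (108 * Real.log (|(k : ℝ)| + 2) / (1 + |(k : ℝ)|) ^ 2) := by
        rw [Finset.sum_mul]
    _ ≤ (K * Real.log (|(k : ℝ)| + 2)) * (108 * Real.log (|(k : ℝ)| + 2) / (1 + |(k : ℝ)|) ^ 2) :=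
        mul_le_mul_of_nonneg_right h1 (by positivity)
    _ = K * 108 * Real.log (|(k : ℝ)| + 2) ^ 2 / (1 + |(k : ℝ)|) ^ 2 := by ring

/-- small tails -/
theorem tail (F : Go → ℝ) (hF : Summable F) (h0 : ∀ g, 0 ≤ F g) {ε : ℝ} (hε : 0 < ε) :
    ∃ S0 : Finset ℝ, (∀ g ∈ S0, riemannZeta (cl g) = 0) ∧ ∀ S : Finset ℝ, S0 ⊆ S →
      Summable (fun g : Go => if (g : ℝ) ∈ S then 0 else F g) ∧
      ∑' g : Go, (if (g : ℝ) ∈ S then 0 else F g) ≤ ε := by
  classical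
  have h1 : ∀ᶠ s : Finset Go in atTop, (∑' g, F g) - ε < ∑ g ∈ s, F g :=
    hF.hasSum.eventually (lt_mem_nhds (by linarith))
  obtain ⟨s, hs⟩ := h1.exists
  refine ⟨s.map (Function.Embedding.subtype _), ?_, fun S hS => ?_⟩
  · intro g hg
    rw [Finset.mem_map] at hg
    obtain ⟨ρ, -, rfl⟩ := hg
    exact ρ.2
  have hs1 : Summable (fun g : Go => if (g : ℝ) ∈ S then 0 else F g) := by
    refine Summable.of_nonneg_of_le (fun g => ?_) (fun g => ?_) hF
    · split_ifs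
      · exact le_refl _
      · exact h0 g
    · split_ifs
      · exact h0 g
      · exact le_refl _
  refine ⟨hs1, ?_⟩
  have e1 : ∑' g, F g = (∑' g : Go, if g ∈ s then F g else 0) + ∑' g : Go, if g ∈ s then 0 else F g := by
    rw [← Summable.tsum_add]
    · refine tsum_congr fun g => ?_
      split_ifs <;> simp
    · exact summable_of_ne_finset_zero (s := s) fun g hg => if_neg hg
    · refine Summable.of_nonneg_of_le (fun g => ?_) (fun g => ?_) hF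
      · split_ifs
        · exact le_refl _
        · exact h0 g
      · split_ifs
        · exact h0 g
        · exact le_refl _
  have e2 : (∑' g : Go, if g ∈ s then F g else 0) = ∑ g ∈ s, F g := by
    rw [tsum_eq_sum (s := s) fun g hg => if_neg hg]
    exact Finset.sum_congr rfl fun g hg => if_pos hg
  have hs2 : Summable (fun g : Go => if g ∈ s then 0 else F g) := by
    refine Summable.of_nonneg_of_le (fun g => ?_) (fun g => ?_) hF
    · split_ifs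
      · exact le_refl _
      · exact h0 g
    · split_ifs
      · exact h0 g
      · exact le_refl _
  have e3 : ∑' g : Go, (if (g : ℝ) ∈ S then 0 else F g) ≤ ∑' g : Go, if g ∈ s then 0 else F g := by
    refine Summable.tsum_le_tsum (fun g => ?_) hs1 hs2
    by_cases hg : g ∈ s
    · have hg' : (g : ℝ) ∈ S := hS (Finset.mem_map.2 ⟨g, hg, rfl⟩)
      rw [if_pos hg, if_pos hg']
    · rw [if_neg hg]
      split_ifs
      · exact h0 g
      · exact le_refl _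
  linarith

/-- Cauchy-Schwarz for the near zeros -/
theorem Nz_sq {K : ℝ} (hK : 0 < K)
    (hb : ∀ (t : ℝ) (S : Finset ℝ), (∀ g ∈ S, riemannZeta (cl g) = 0 ∧ |g - t| ≤ 1) →
      ∑ g ∈ S, (mz (cl g) : ℝ) ≤ K * Lo t) (S : Finset ℝ) {δ : ℝ} (hδ : 0 < δ) (t : ℝ) :
    ∃ T : Finset Go, Nz S δ t ^ 2 / (1 / 4 + t ^ 2) ≤
      ∑ g ∈ T, (if (g : ℝ) ∈ S then 0 else 18 * K * ((mz (cl g) : ℝ) * W1 g)) * (1 / (δ ^ 2 + (t - (g : ℝ)) ^ 2)) := by
  classical
  set T := (nzt_supp S δ t).toFinset with hT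
  refine ⟨T, ?_⟩
  have hTm : ∀ g ∈ T, (g : ℝ) ∉ S ∧ |(g : ℝ) - t| ≤ 1 := by
    intro g hg
    rw [hT, Set.Finite.mem_toFinset, Function.mem_support] at hg
    unfold nzt at hg
    by_contra hcon
    apply hg
    rw [if_pos]
    by_contra h2
    push Not at h2
    exact hcon ⟨h2.1, h2.2⟩
  have hN : Nz S δ t = ∑ g ∈ T, nzt S δ t g := by
    rw [Nz_eq]
    refine tsum_eq_sum fun g hg => ?_
    rw [hT, Set.Finite.mem_toFinset, Function.mem_support, not_not] at hg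
    exact hg
  have hval : ∀ g ∈ T, nzt S δ t g ^ 2 = (mz (cl g) : ℝ) * ((mz (cl g) : ℝ) * (1 / (δ ^ 2 + (t - (g : ℝ)) ^ 2))) := by
    intro g hg
    obtain ⟨h1, h2⟩ := hTm g hg
    have e : ‖(δ : ℂ) + (t - (g : ℝ)) * I‖ ^ 2 = δ ^ 2 + (t - (g : ℝ)) ^ 2 := by
      rw [← Complex.normSq_eq_norm_sq, Complex.normSq_apply]
      simp
      ring
    unfold nzt
    rw [if_neg (by push Not; exact ⟨h1, h2⟩), div_pow, e]
    ring
  have hcs := Finset.sum_sq_le_sum_mul_sum_of_sq_le_mul T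
    (r := fun g => nzt S δ t g) (f := fun g => (mz (cl g) : ℝ))
    (g := fun g => (mz (cl g) : ℝ) * (1 / (δ ^ 2 + (t - (g : ℝ)) ^ 2)))
    (fun g _ => Nat.cast_nonneg _) (fun g _ => by positivity) (fun g hg => (hval g hg).le)
  have hsum : ∑ g ∈ T, (mz (cl g) : ℝ) ≤ K * Lo t := by
    have h1 := hb t (T.map (Function.Embedding.subtype _)) (by
      intro g hg
      rw [Finset.mem_map] at hg
      obtain ⟨ρ, hρ, rfl⟩ := hg
      exact ⟨ρ.2, (hTm ρ hρ).2⟩)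
    rw [Finset.sum_map] at h1
    exact h1
  have ht4 : 0 < 1 / 4 + t ^ 2 := by positivity
  have hnn : 0 ≤ ∑ g ∈ T, (mz (cl g) : ℝ) * (1 / (δ ^ 2 + (t - (g : ℝ)) ^ 2)) :=
    Finset.sum_nonneg fun g _ => by positivity
  rw [hN]
  calc (∑ g ∈ T, nzt S δ t g) ^ 2 / (1 / 4 + t ^ 2)
      ≤ (K * Lo t) * (∑ g ∈ T, (mz (cl g) : ℝ) * (1 / (δ ^ 2 + (t - (g : ℝ)) ^ 2))) / (1 / 4 + t ^ 2) := by
        apply div_le_div_of_nonneg_right _ ht4.le
        exact hcs.trans (mul_le_mul_of_nonneg_right hsum hnn)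
    _ = ∑ g ∈ T, K * W1 t * ((mz (cl g) : ℝ) * (1 / (δ ^ 2 + (t - (g : ℝ)) ^ 2))) := by
        rw [← Finset.mul_sum]
        unfold W1
        ring
    _ ≤ _ := by
        refine Finset.sum_le_sum fun g hg => ?_
        obtain ⟨h1, h2⟩ := hTm g hg
        rw [if_neg h1]
        have h3 : W1 t ≤ 18 * W1 g := W1_comp (by rwa [abs_sub_comm])
        calc K * W1 t * ((mz (cl g) : ℝ) * (1 / (δ ^ 2 + (t - (g : ℝ)) ^ 2)))
            ≤ K * (18 * W1 g) * ((mz (cl g) : ℝ) * (1 / (δ ^ 2 + (t - (g : ℝ)) ^ 2))) := by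
              gcongr
          _ = _ := by ring

theorem cr3 : S_CR3 := by
  classical
  intro hRH ε hε
  have hL := Pool.Agent.Q296.GM.L2_of_rh hRH
  obtain ⟨K, hK, hb⟩ := near_mult
  have hpi := Real.pi_pos
  have := Go_countable
  have hFs : Summable (fun g : Go => 18 * K * ((mz (cl g) : ℝ) * W1 g)) := summable_W1.mul_left _
  have hF0 : ∀ g : Go, 0 ≤ 18 * K * ((mz (cl g) : ℝ) * W1 g) := fun g => by
    have := W1_pos (g : ℝ)
    positivity
  obtain ⟨S0, hS0, htail⟩ := tail _ hFs hF0 (ε := ε / (4 * Real.pi)) (by positivity)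
  refine ⟨S0, hS0, fun S hS hSz => ?_⟩
  obtain ⟨hs1, hs2⟩ := htail S hS
  obtain ⟨C, hC, hcr2⟩ := cr2 hRH S hSz
  set B : ℝ := 5 + ∑ g ∈ S, 2 * (mz (cl g) : ℝ) with hB
  have hB0 : 0 < B := by positivity
  have hI : 0 ≤ ∫ t, W2 t := integral_nonneg fun t => (W2_pos t).le
  have hlim : Tendsto (fun δ : ℝ => δ * (2 * (C + B) ^ 2 * ∫ t, W2 t)) (𝓝[>] 0) (𝓝 0) := by
    have h1 : Tendsto (fun δ : ℝ => δ * (2 * (C + B) ^ 2 * ∫ t, W2 t)) (𝓝 0) (𝓝 (0 * (2 * (C + B) ^ 2 * ∫ t, W2 t))) :=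
      (continuous_id.mul continuous_const).tendsto 0
    rw [zero_mul] at h1
    exact h1.mono_left nhdsWithin_le_nhds
  have hev := hlim.eventually (gt_mem_nhds (show (0 : ℝ) < ε / 2 by positivity))
  have hI4 : Ioc (0 : ℝ) (1 / 4) ∈ 𝓝[>] (0 : ℝ) := Ioc_mem_nhdsGT (by norm_num)
  filter_upwards [hev, hI4] with δ hδ1 hδ2
  obtain ⟨hδ, hδ4⟩ := hδ2
  have hcr1 := (Pool.Agent.Q237.OE.CR1.t_CR1 hL S δ hδ hδ4).2.2
  have hbound := int_bound (ι := Go) (fun t => ‖GS S δ t‖ ^ 2) (fun t => by positivity) (2 * (C + B) ^ 2)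
    (by positivity) (fun g => 2 * (if (g : ℝ) ∈ S then 0 else 18 * K * ((mz (cl g) : ℝ) * W1 g)))
    (fun g => by
      have := hF0 g
      split_ifs
      · norm_num
      · linarith) (hs1.mul_left 2) (fun g => (g : ℝ)) hδ (by
    intro t
    obtain ⟨T, hT⟩ := Nz_sq hK hb S hδ t
    refine ⟨T, ?_⟩
    set s : ℂ := (((1 / 2 + δ : ℝ) : ℂ) + t * I) with hs
    have hsre : s.re = 1 / 2 + δ := by rw [hs]; simp
    have hsim : s.im = t := by rw [hs]; simp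
    have h1 := hcr1 t
    have h2 := hcr2 δ t hδ hδ4
    rw [← hs] at h1 h2
    have hs1' : s ≠ 1 := by
      intro h
      rw [h, one_re] at hsre
      linarith
    have hq : ‖1 / (s - 1)‖ ≤ 4 := by
      rw [norm_div, norm_one, div_le_iff₀ (norm_pos_iff.2 (sub_ne_zero.2 hs1'))]
      have h1 := Complex.abs_re_le_norm (s - 1)
      rw [sub_re, hsre, one_re] at h1
      have h2 : (1 / 4 : ℝ) ≤ |1 / 2 + δ - 1| := by
        rw [abs_of_nonpos (by linarith)]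
        linarith
      linarith
    have hq2 : ‖s / (s - 1)‖ ≤ 5 := by
      have e : s / (s - 1) = 1 + 1 / (s - 1) := by
        have := sub_ne_zero.2 hs1'
        field_simp
        ring
      rw [e]
      refine (norm_add_le _ _).trans ?_
      rw [norm_one]
      linarith
    have hq3 : ‖∑ g ∈ S, (mz (cl g) : ℂ) / cl g‖ ≤ ∑ g ∈ S, 2 * (mz (cl g) : ℝ) := by
      refine (norm_sum_le _ _).trans (Finset.sum_le_sum fun g _ => ?_)
      have h3 : (1 / 2 : ℝ) ≤ ‖cl g‖ := by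
        have := Complex.re_le_norm (cl g)
        rwa [cl_re'] at this
      rw [norm_div, Complex.norm_natCast, div_le_iff₀ (by linarith)]
      have h4 : (0 : ℝ) ≤ mz (cl g) := Nat.cast_nonneg _
      nlinarith
    have h3 : ‖s * GS S δ t‖ ≤ (C + B) * Lo t + Nz S δ t := by
      rw [h1]
      set A := -(deriv riemannZeta s / riemannZeta s) + ∑ g ∈ S, (mz (cl g) : ℂ) / (s - cl g) with hA
      have e : -(deriv riemannZeta s / riemannZeta s) - s / (s - 1) + ∑ g ∈ S, (mz (cl g) : ℂ) / (s - cl g) +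
          ∑ g ∈ S, (mz (cl g) : ℂ) / cl g = A - s / (s - 1) + ∑ g ∈ S, (mz (cl g) : ℂ) / cl g := by
        rw [hA]; ring
      rw [e]
      have h4 : ‖A - s / (s - 1) + ∑ g ∈ S, (mz (cl g) : ℂ) / cl g‖ ≤ ‖A‖ + ‖s / (s - 1)‖ +
          ‖∑ g ∈ S, (mz (cl g) : ℂ) / cl g‖ := by
        have h5 := norm_add_le (A - s / (s - 1)) (∑ g ∈ S, (mz (cl g) : ℂ) / cl g)
        have h6 := norm_sub_le A (s / (s - 1))
        linarith
      have h5 : Real.log (|t| + 3) ≤ Lo t := by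
        unfold Lo
        exact Real.log_le_log (by positivity) (by linarith)
      have h6 := mul_le_mul_of_nonneg_left h5 hC.le
      have h7 := Lo_ge t
      have h8 : B ≤ B * Lo t := le_mul_of_one_le_right hB0.le h7
      have h9 : (C + B) * Lo t = C * Lo t + B * Lo t := by ring
      rw [h9]
      linarith
    have hs2' : 1 / 4 + t ^ 2 ≤ ‖s‖ ^ 2 := by
      rw [← Complex.normSq_eq_norm_sq, Complex.normSq_apply, hsre, hsim]
      nlinarith
    have h4 : ‖GS S δ t‖ ^ 2 * (1 / 4 + t ^ 2) ≤ 2 * ((C + B) * Lo t) ^ 2 + 2 * Nz S δ t ^ 2 := by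
      have h5 : ‖s * GS S δ t‖ ^ 2 ≤ ((C + B) * Lo t + Nz S δ t) ^ 2 := pow_le_pow_left₀ (norm_nonneg _) h3 2
      rw [norm_mul, mul_pow] at h5
      have h6 : ‖GS S δ t‖ ^ 2 * (1 / 4 + t ^ 2) ≤ ‖GS S δ t‖ ^ 2 * ‖s‖ ^ 2 :=
        mul_le_mul_of_nonneg_left hs2' (by positivity)
      nlinarith [sq_nonneg ((C + B) * Lo t - Nz S δ t)]
    have ht4 : 0 < 1 / 4 + t ^ 2 := by positivity
    have h5 : ‖GS S δ t‖ ^ 2 ≤ 2 * (C + B) ^ 2 * W2 t + 2 * (Nz S δ t ^ 2 / (1 / 4 + t ^ 2)) := by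
      rw [← le_div_iff₀ ht4] at h4
      refine h4.trans (le_of_eq ?_)
      unfold W2
      ring
    refine h5.trans ?_
    have e6 : ∑ i ∈ T, 2 * (if (i : ℝ) ∈ S then 0 else 18 * K * ((mz (cl i) : ℝ) * W1 i)) *
        (1 / (δ ^ 2 + (t - (i : ℝ)) ^ 2)) = 2 * ∑ g ∈ T, (if (g : ℝ) ∈ S then 0 else 18 * K *
        ((mz (cl g) : ℝ) * W1 g)) * (1 / (δ ^ 2 + (t - (g : ℝ)) ^ 2)) := by
      rw [Finset.mul_sum]
      exact Finset.sum_congr rfl fun g _ => by ring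
    rw [e6]
    linarith)
  rw [tsum_mul_left] at hbound
  have h7 := mul_le_mul_of_nonneg_left hbound hδ.le
  refine h7.trans ?_
  have e8 : δ * (2 * (C + B) ^ 2 * (∫ t, W2 t) + Real.pi / δ * (2 * ∑' g : Go, (if (g : ℝ) ∈ S then 0 else 18 * K *
      ((mz (cl g) : ℝ) * W1 g)))) = δ * (2 * (C + B) ^ 2 * ∫ t, W2 t) + 2 * Real.pi * ∑' g : Go,
      (if (g : ℝ) ∈ S then 0 else 18 * K * ((mz (cl g) : ℝ) * W1 g)) := by
    field_simp
  rw [e8]
  have h9 := mul_le_mul_of_nonneg_left hs2 (show (0 : ℝ) ≤ 2 * Real.pi by positivity)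
  have e10 : 2 * Real.pi * (ε / (4 * Real.pi)) = ε / 2 := by field_simp; norm_num
  rw [e10] at h9
  have h11 : δ * (2 * (C + B) ^ 2 * ∫ t, W2 t) < ε / 2 := hδ1
  linarith

end Pool.Agent.H681.OE
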