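import Pool.Graph.R_pool_sql_team_seeded_3997aac3.Q260.OE.Stm2
import Pool.Agent.H575.BD.Const
import Pool.Agent.H575.BD.Cnt

/-!
# Project OE, job POS: facts on the zeros (helper681)
-/

set_option autoImplicit false

namespace Pool.Agent.H681.OE

open Complex Filter Topology Set MeasureTheory
open Pool.Agent.Q286.BD (cl mz eqv eqv_coe norm_cl_sq summ_line)
open Pool.Agent.Q260.OE (Go BB S_POS)

theorem const_pos : 0 < 2 + Real.eulerMascheroniConstant - Real.log (4 * Real.pi) := by
  have h1 := Real.eulerMascheroniSeq_lt_eulerMascheroniConstant 20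
  have h2 : Real.eulerMascheroniSeq 20 = 55835135 / 15519504 - Real.log 21 := by
    have h3 : (harmonic 20 : ℚ) = 55835135 / 15519504 := by
      norm_num [harmonic, Finset.sum_range_succ]
    rw [Real.eulerMascheroniSeq, h3]
    push_cast
    norm_num
  have hpi := Real.pi_pos
  have h3 : Real.log (4 * Real.pi) + Real.log 21 = Real.log (84 * Real.pi) := by
    rw [← Real.log_mul (by positivity) (by norm_num)]
    congr 1
    ring
  have h4 : Real.log (84 * Real.pi) < 2 + 55835135 / 15519504 := by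
    rw [Real.log_lt_iff_lt_exp (by positivity)]
    have h5 : (84 * Real.pi) ^ 2 < Real.exp (2 + 55835135 / 15519504) ^ 2 := by
      have h6 : Real.exp (2 + 55835135 / 15519504) ^ 2 = Real.exp (2 * (2 + 55835135 / 15519504)) := by
        rw [← Real.exp_nat_mul]
        norm_num
      have h7 : Real.exp (11 + 195 / 1000) ≤ Real.exp (2 * (2 + 55835135 / 15519504)) := by
        apply Real.exp_le_exp.2
        norm_num
      have h8 : (1 + 195 / 1000 : ℝ) ≤ Real.exp (195 / 1000) := by
        have := Real.add_one_le_exp (195 / 1000 : ℝ)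
        linarith
      have h9 : (59800 : ℝ) ≤ Real.exp 11 := by
        have e : Real.exp 11 = Real.exp 1 ^ 11 := by
          rw [← Real.exp_nat_mul]
          norm_num
        rw [e]
        have h10 : (2.718 : ℝ) ≤ Real.exp 1 := by
          have := Real.exp_one_gt_d9
          linarith
        calc (59800 : ℝ) ≤ 2.718 ^ 11 := by norm_num
          _ ≤ _ := pow_le_pow_left₀ (by norm_num) h10 11
      have h10 : (84 * Real.pi) ^ 2 ≤ (84 * 3.1416) ^ 2 := by
        have := Real.pi_lt_d4
        gcongr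
      rw [h6]
      refine lt_of_lt_of_le ?_ h7
      rw [Real.exp_add]
      calc (84 * Real.pi) ^ 2 ≤ (84 * 3.1416) ^ 2 := h10
        _ < 59800 * (1 + 195 / 1000) := by norm_num
        _ ≤ _ := mul_le_mul h9 h8 (by norm_num) (Real.exp_pos _).le
    exact lt_of_pow_lt_pow_left₀ 2 (Real.exp_pos _).le h5
  linarith

theorem pos_t : S_POS := by
  have hp : ∀ g : Go, 1 ≤ mz (cl g) := fun g =>
    Pool.Agent.Q286.BD.mz_pos ⟨cl g, g.2, by rw [Pool.Agent.Q286.BD.cl_re]; norm_num,
      by rw [Pool.Agent.Q286.BD.cl_re]; norm_num⟩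
  refine ⟨hp, fun hRH => ?_⟩
  have hs := summ_line hRH Pool.Agent.H575.BD.sum2
  have hc : ∑' g : Go, (mz (cl g) : ℝ) / (1 / 4 + (g : ℝ) ^ 2) =
      2 + Real.eulerMascheroniConstant - Real.log (4 * Real.pi) := by
    rw [← Pool.Agent.H575.BD.const hRH, ← (eqv hRH).tsum_eq]
    refine tsum_congr fun g => ?_
    rw [eqv_coe, norm_cl_sq]
  have hnn : ∀ g : Go, 0 ≤ (mz (cl g) : ℝ) ^ 2 / (1 / 4 + (g : ℝ) ^ 2) := fun g => by positivity
  refine ⟨?_, hc, ?_⟩
  · -- there is a zero
    by_cases hne : Nonempty Go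
    · obtain ⟨g0⟩ := hne
      have h1 := hs.le_tsum g0 (fun g _ => hnn g)
      have h2 : (0 : ℝ) < (mz (cl g0) : ℝ) ^ 2 / (1 / 4 + (g0 : ℝ) ^ 2) := by
        have : (0 : ℝ) < mz (cl g0) := by exact_mod_cast hp g0
        positivity
      exact h2.trans_le h1
    · exfalso
      rw [not_nonempty_iff] at hne
      rw [tsum_empty] at hc
      have := const_pos
      linarith
  · intro h0 g
    have hnn2 : ∀ g : Go, 0 ≤ 2 * (mz (cl g) : ℝ) * ((mz (cl g) : ℝ) - 1) / (1 / 4 + (g : ℝ) ^ 2) := fun g => by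
      have h1 : (1 : ℝ) ≤ mz (cl g) := by exact_mod_cast hp g
      have h2 : 0 ≤ (mz (cl g) : ℝ) - 1 := by linarith
      positivity
    have hs2 : Summable (fun g : Go => 2 * (mz (cl g) : ℝ) * ((mz (cl g) : ℝ) - 1) / (1 / 4 + (g : ℝ) ^ 2)) := by
      refine Summable.of_nonneg_of_le hnn2 (fun g => ?_) (hs.mul_left 2)
      rw [← mul_div_assoc]
      apply div_le_div_of_nonneg_right _ (by positivity)
      have h1 : (0 : ℝ) ≤ mz (cl g) := Nat.cast_nonneg _
      nlinarith
    have h3 := hs2.hasSum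
    rw [h0, hasSum_zero_iff_of_nonneg hnn2] at h3
    have h4 := congrFun h3 g
    have h5 : (0 : ℝ) < 1 / 4 + (g : ℝ) ^ 2 := by positivity
    have h6 : 2 * (mz (cl g) : ℝ) * ((mz (cl g) : ℝ) - 1) = 0 := by
      have := (div_eq_zero_iff.1 h4).resolve_right h5.ne'
      exact this
    have h7 : (1 : ℝ) ≤ mz (cl g) := by exact_mod_cast hp g
    have h8 : (mz (cl g) : ℝ) - 1 = 0 := by
      rcases mul_eq_zero.1 h6 with h | h
      · exfalso
        linarith
      · exact h
    have h9 : (mz (cl g) : ℝ) = 1 := by linarith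
    exact_mod_cast h9

end Pool.Agent.H681.OE
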