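import Pool.Graph.R_pool_sql_team_seeded_3997aac3.Q260.OE.Fin4
import Pool.Graph.R_pool_sql_team_seeded_3997aac3.Q260.OE.Stm4
import Pool.Graph.R_pool_sql_team_seeded_3997aac3.Q260.OE.Stm5
import Pool.Graph.R_pool_sql_team_seeded_3997aac3.Q164.OE.Leg
import Pool.Graph.R_pool_sql_team_seeded_3997aac3.Q210.OE.Ffb
import Pool.Graph.R_pool_sql_team_seeded_3997aac3.Q193.OE.STR
import Pool.Graph.R_pool_sql_team_seeded_3997aac3.Q137.OE.MOD
import Pool.Graph.R_pool_sql_team_seeded_3997aac3.Q211.OE.PLG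
import Pool.Graph.R_pool_sql_team_seeded_3997aac3.Q211.OE.NT
import Pool.Graph.R_pool_sql_team_seeded_3997aac3.Q211.OE.NR3
import Pool.Graph.R_pool_sql_team_seeded_3997aac3.Q237.OE.CR1
import Pool.Graph.R_pool_sql_team_seeded_3997aac3.Q237.OE.CR4
import Pool.Graph.R_pool_sql_team_seeded_3997aac3.Q237.OE.COR1
import Pool.Graph.R_pool_sql_team_seeded_3997aac3.Q229.OE.PL
import Pool.Graph.R_pool_sql_team_seeded_3997aac3.Q229.OE.COE
import Pool.Graph.R_pool_sql_team_seeded_3997aac3.Q229.OE.NR1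
import Pool.Graph.R_pool_sql_team_seeded_3997aac3.Q123.OE.Qf
import Pool.Graph.R_pool_sql_team_seeded_3997aac3.Q123.OE.Frq
import Pool.Graph.R_pool_sql_team_seeded_3997aac3.Q198.OE.PRO
import Pool.Graph.R_pool_sql_team_seeded_3997aac3.Q198.OE.BST
import Pool.Graph.R_pool_sql_team_seeded_3997aac3.Q150.OE.NR2
import Pool.Graph.R_pool_sql_team_seeded_3997aac3.Q153.OE.NR4
import Pool.Graph.R_pool_sql_team_seeded_3997aac3.Q96.OE.FRW
import Pool.Graph.R_pool_sql_team_seeded_3997aac3.Q149.OE.PAI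
import Pool.Graph.R_pool_sql_team_seeded_3997aac3.Q149.OE.PHS
import Pool.Agent.H575.BD.All
import Pool.Agent.H681.BD.Real
import Pool.Agent.H681.OE.XW
import Pool.Agent.H681.OE.CR3
import Pool.Agent.H681.OE.POS

/-!
# Project OE: all jobs are proven (assembly, helper681)
-/

set_option autoImplicit false

namespace Pool.Agent.H681.OE

open Pool.Agent.Q286.BD (S_TR S_TN S_intR S_sum2 S_cnt S_coef S_mel S_nrh S_up S_low)
open Pool.Agent.Q260.OE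

theorem a_LEG : S_LEG := Pool.Agent.Q164.OE.leg

theorem a_FFB : S_FFB := Pool.Agent.Q210.OE.t_FFB a_LEG

theorem a_STR : S_STR := Pool.Agent.Q193.OE.t_STR a_LEG Pool.Agent.H681.BD.tR Pool.Agent.H681.BD.tN intR

theorem a_CR4 : S_CR4 :=
  Pool.Agent.Q237.OE.CR4.t_CR4 Pool.Agent.Q296.GM.L2_of_rh Pool.Agent.Q237.OE.CR1.t_CR1 cr3 Pool.Agent.Q211.OE.t_PLG

theorem a_QF : S_QF := Pool.Agent.Q123.OE.qf a_STR Pool.Agent.Q137.OE.t_MOD a_CR4 a_LEG Pool.Agent.H575.BD.sum2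

theorem a_COR1 : S_COR1 := Pool.Agent.Q237.OE.COR1.t_COR1 a_QF a_LEG t_XW

theorem a_FRQ : S_FRQ := Pool.Agent.Q123.OE.frq a_STR Pool.Agent.Q229.OE.t_PL a_FFB Pool.Agent.H575.BD.sum2

theorem a_PRO : S_PRO := Pool.Agent.Q198.OE.t_PRO a_STR Pool.Agent.Q229.OE.t_PL a_FFB Pool.Agent.H575.BD.sum2

theorem a_COE : S_COE := Pool.Agent.Q229.OE.t_COE Pool.Agent.Q202.BD.coef

theorem a_NR1 : S_NR1 :=
  Pool.Agent.Q229.OE.t_NR1 Pool.Agent.H575.BD.nrh Pool.Agent.Q198.OE.t_BST t_XW Pool.Agent.Q211.OE.t_NT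

theorem a_NR2 : S_NR2 :=
  Pool.Agent.Q150.OE.t_NR2 Pool.Agent.H575.BD.nrh intR Pool.Agent.Q211.OE.t_NT Pool.Agent.Q198.OE.t_BST t_XW

theorem a_NR3 : S_NR3 :=
  Pool.Agent.Q211.OE.t_NR3 Pool.Agent.H575.BD.nrh Pool.Agent.Q202.BD.coef Pool.Agent.Q198.OE.t_BST

theorem a_NR4 : S_NR4 :=
  Pool.Agent.Q153.OE.t_NR4 Pool.Agent.H575.BD.nrh Pool.Agent.Q237.BD.mel Pool.Agent.H575.BD.cnt

theorem a_FRW : S_FRW :=
  Pool.Agent.Q96.OE.t_FRW a_STR a_CR4 Pool.Agent.Q229.OE.t_PL a_FFB Pool.Agent.Q211.OE.t_PLG a_LEG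
    Pool.Agent.H575.BD.sum2

theorem a_PHS : S_PHS :=
  Pool.Agent.Q149.OE.t_PHS a_STR a_CR4 Pool.Agent.Q211.OE.t_PLG a_LEG Pool.Agent.H575.BD.sum2

theorem a_PAI : S_PAI :=
  Pool.Agent.Q149.OE.t_PAI Pool.Agent.H681.BD.tR intR t_XW a_CR4 Pool.Agent.H575.BD.sum2

end Pool.Agent.H681.OE
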