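import Pool.Agent.H681.OE.Landau

/-!
# Project OE, job CR2: partial fractions of `ζ'/ζ` to the right of the critical line under RH (helper681)
-/

set_option autoImplicit false

namespace Pool.Agent.H681.OE

open Complex Filter Topology Set MeasureTheory Metric
open Pool.Agent.W66 (Z1 Z1_diff Z1_eq Z1_one Z1_ne_zero ell one_le_ell)
open Pool.Agent.Q286.BD (cl mz)
open Pool.Agent.Q260.OE (Go Nz S_CR2)

theorem near_finite (t : ℝ) : {g : Go | |(g : ℝ) - t| ≤ 1}.Finite := by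
  obtain ⟨K0, h⟩ := Pool.Agent.H575.BD.cnt
  have h1 := (h (t - 1)).1
  have h2 := (h t).1
  refine Set.Finite.of_finite_image ?_ (Subtype.val_injective.injOn)
  refine (h1.union h2).subset ?_
  rintro _ ⟨g, hg, rfl⟩
  rw [Set.mem_ofPred_eq, abs_le] at hg
  rcases le_or_gt (g : ℝ) t with h3 | h3
  · left
    exact ⟨g.2, by linarith [hg.1], by linarith⟩
  · right
    exact ⟨g.2, by linarith, by linarith [hg.2]⟩

/-- the terms of `Nz` -/
noncomputable def nzt (S : Finset ℝ) (δ t : ℝ) (g : Go) : ℝ :=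
  if (g : ℝ) ∈ S ∨ 1 < |(g : ℝ) - t| then 0 else (mz (cl g) : ℝ) / ‖(δ : ℂ) + (t - (g : ℝ)) * I‖

theorem nzt_nonneg (S : Finset ℝ) (δ t : ℝ) (g : Go) : 0 ≤ nzt S δ t g := by
  unfold nzt
  split_ifs
  · exact le_refl _
  · positivity

theorem nzt_supp (S : Finset ℝ) (δ t : ℝ) : (Function.support (nzt S δ t)).Finite := by
  refine (near_finite t).subset ?_
  intro g hg
  rw [Function.mem_support] at hg
  by_contra hcon
  apply hg
  unfold nzt
  rw [if_pos]
  right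
  simpa using hcon

theorem nzt_summable (S : Finset ℝ) (δ t : ℝ) : Summable (nzt S δ t) :=
  summable_of_hasFiniteSupport (nzt_supp S δ t)

theorem Nz_eq (S : Finset ℝ) (δ t : ℝ) : Nz S δ t = ∑' g : Go, nzt S δ t g := rfl

theorem Nz_nonneg (S : Finset ℝ) (δ t : ℝ) : 0 ≤ Nz S δ t := by
  rw [Nz_eq]
  exact tsum_nonneg (nzt_nonneg S δ t)

/-- a partial sum of `Nz` -/
theorem sum_le_Nz (S : Finset ℝ) (δ t : ℝ) (T : Finset ℝ) (hT : ∀ g ∈ T, riemannZeta (cl g) = 0)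
    (hS : ∀ g ∈ T, g ∉ S) (ht : ∀ g ∈ T, |g - t| ≤ 1) :
    ∑ g ∈ T, (mz (cl g) : ℝ) / ‖(δ : ℂ) + (t - (g : ℝ)) * I‖ ≤ Nz S δ t := by
  classical
  rw [Nz_eq]
  have h1 : ∑ g ∈ T, (mz (cl g) : ℝ) / ‖(δ : ℂ) + (t - (g : ℝ)) * I‖ =
      ∑ g ∈ T.subtype (fun g => g ∈ Go), nzt S δ t g := by
    rw [← Finset.sum_subtype_of_mem (p := fun g => g ∈ Go)
      (fun g : ℝ => (mz (cl g) : ℝ) / ‖(δ : ℂ) + (t - (g : ℝ)) * I‖) (fun g hg => hT g hg)]
    refine Finset.sum_congr rfl fun g hg => ?_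
    have hg' : (g : ℝ) ∈ T := Finset.mem_subtype.1 hg
    unfold nzt
    rw [if_neg]
    rintro (h | h)
    · exact hS _ hg' h
    · exact absurd (ht _ hg') (not_le.2 h)
  rw [h1]
  exact (nzt_summable S δ t).sum_le_tsum _ (fun g _ => nzt_nonneg S δ t g)

theorem cl_re' (t : ℝ) : (cl t).re = 1 / 2 := by
  unfold cl
  simp

theorem cl_im' (t : ℝ) : (cl t).im = t := by
  unfold cl
  simp

theorem cl_ne_one (t : ℝ) : cl t ≠ 1 := by
  intro h
  have := congrArg Complex.re h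
  rw [cl_re', one_re] at this
  norm_num at this

theorem cr2 : S_CR2 := by
  classical
  intro hRH S hS
  obtain ⟨K, hK, hpf⟩ := pf_Z1
  refine ⟨K + 4 + ∑ g ∈ S, 2 * (mz (cl g) : ℝ), by positivity, ?_⟩
  intro δ t hδ hδ4
  obtain ⟨s, hs1, hs2, hs3⟩ := hpf t
  set z : ℂ := (((1 / 2 + δ : ℝ) : ℂ) + t * I) with hz
  have hzre : z.re = 1 / 2 + δ := by
    rw [hz]; simp
  have hzim : z.im = t := by
    rw [hz]; simp
  have hz1 : z ≠ 1 := by
    intro h
    rw [h, one_re] at hzre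
    linarith
  have hzc : z ∈ closedBall (⟨2, t⟩ : ℂ) (3 / 2) := by
    rw [mem_closedBall, dist_eq_norm]
    have e : z - ⟨2, t⟩ = ((δ - 3 / 2 : ℝ) : ℂ) := by
      apply Complex.ext
      · rw [sub_re, hzre, ofReal_re]; ring
      · rw [sub_im, hzim, ofReal_im]; simp
    rw [e, Complex.norm_real, Real.norm_eq_abs, abs_le]
    constructor <;> linarith
  -- the zeros
  have hrho : ∀ ρ ∈ s, ρ = cl ρ.im ∧ riemannZeta (cl ρ.im) = 0 ∧ |ρ.im - t| ≤ 1 := by
    intro ρ hρ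
    obtain ⟨a1, a2⟩ := hs1 ρ hρ
    have hlt : ρ.re < 1 := by
      by_contra hcon
      exact Z1_ne_zero (not_lt.1 hcon) a2
    have hne : ρ ≠ 1 := by
      rintro rfl
      rw [one_re] at hlt
      exact lt_irrefl _ hlt
    rw [Z1_eq hne, mul_eq_zero] at a2
    have hζ : riemannZeta ρ = 0 := by
      rcases a2 with h | h
      · exact absurd h (sub_ne_zero.2 hne)
      · exact h
    rw [mem_closedBall, dist_eq_norm] at a1
    have h1 := (Complex.abs_re_le_norm (ρ - ⟨2, t⟩)).trans a1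
    rw [sub_re, abs_le] at h1
    simp only at h1
    have hre : ρ.re = 1 / 2 := by
      refine hRH ρ hζ ?_ hne
      rintro ⟨n, hn⟩
      have := congrArg Complex.re hn
      simp at this
      have hn0 : (0 : ℝ) ≤ n := Nat.cast_nonneg n
      linarith [h1.1]
    have e : ρ = cl ρ.im := by
      apply Complex.ext
      · rw [cl_re', hre]
      · rw [cl_im']
    refine ⟨e, e ▸ hζ, ?_⟩
    have h2 : ‖ρ - ⟨2, t⟩‖ ^ 2 = (3 / 2) ^ 2 + (ρ.im - t) ^ 2 := by
      rw [← Complex.normSq_eq_norm_sq, Complex.normSq_apply, sub_re, sub_im, hre]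
      ring
    have h3 : ‖ρ - ⟨2, t⟩‖ ^ 2 ≤ (8 / 5) ^ 2 := by gcongr
    rw [h2] at h3
    rw [abs_le]
    constructor <;> nlinarith
  have hzs : ∀ ρ ∈ s, z ≠ ρ := by
    intro ρ hρ h
    have := (hrho ρ hρ).1
    rw [← h] at this
    have h2 := congrArg Complex.re this
    rw [cl_re', hzre] at h2
    linarith
  have hζz : riemannZeta z ≠ 0 := by
    intro h0
    have hre : z.re = 1 / 2 := by
      refine hRH z h0 ?_ hz1
      rintro ⟨n, hn⟩
      have := congrArg Complex.re hn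
      rw [hzre] at this
      simp at this
      have hn0 : (0 : ℝ) ≤ n := Nat.cast_nonneg n
      linarith
    rw [hzre] at hre
    linarith
  have hmain := hs3 z hzc hzs
  rw [ld_Z1 hz1 hζz] at hmain
  -- the set of the ordinates
  set T : Finset ℝ := s.toFinset.image Complex.im with hT
  have hTm : ∀ g, g ∈ T ↔ cl g ∈ s := by
    intro g
    rw [hT, Finset.mem_image]
    constructor
    · rintro ⟨ρ, hρ, rfl⟩
      rw [Multiset.mem_toFinset] at hρ
      rw [← (hrho ρ hρ).1]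
      exact hρ
    · intro h
      exact ⟨cl g, Multiset.mem_toFinset.2 h, cl_im' g⟩
  have hsum : (s.map (fun ρ => 1 / (z - ρ))).sum = ∑ g ∈ T, (mz (cl g) : ℂ) / (z - cl g) := by
    rw [Finset.sum_multiset_map_count, hT, Finset.sum_image]
    · refine Finset.sum_congr rfl fun ρ hρ => ?_
      rw [Multiset.mem_toFinset] at hρ
      have h1 := hrho ρ hρ
      have h2 := hs1 ρ hρ
      have hne : ρ ≠ 1 := by
        intro h
        have h5 := cl_ne_one ρ.im
        rw [← h1.1] at h5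
        exact h5 h
      rw [← h1.1, hs2 ρ h2.1, order_Z1 hne, nsmul_eq_mul]
      ring
    · intro a ha b hb hab
      rw [Finset.mem_coe, Multiset.mem_toFinset] at ha hb
      rw [(hrho a ha).1, (hrho b hb).1, hab]
  rw [hsum] at hmain
  have hTz : ∀ g ∈ T, riemannZeta (cl g) = 0 := by
    intro g hg
    have := (hrho _ ((hTm g).1 hg)).2.1
    rwa [cl_im'] at this
  have hTt : ∀ g ∈ T, |g - t| ≤ 1 := by
    intro g hg
    have := (hrho _ ((hTm g).1 hg)).2.2
    rwa [cl_im'] at this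
  -- distance of the zeros of `S` not in `T`
  have hfar : ∀ g ∈ S, g ∉ T → (1 / 2 : ℝ) ≤ ‖z - cl g‖ := by
    intro g hg hgT
    have h1 : ¬ (cl g ∈ closedBall (⟨2, t⟩ : ℂ) (8 / 5)) := by
      intro h2
      apply hgT
      rw [hTm]
      have h3 : Z1 (cl g) = 0 := by
        rw [Z1_eq (cl_ne_one g), hS g hg, mul_zero]
      have h4 := hs2 _ h2
      have h5 : 0 < s.count (cl g) := by
        rw [h4, order_Z1 (cl_ne_one g)]
        exact Pool.Agent.Q286.BD.mz_pos ⟨cl g, hS g hg, by rw [cl_re']; norm_num, by rw [cl_re']; norm_num⟩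
      exact Multiset.count_pos.1 h5
    rw [mem_closedBall, dist_eq_norm, not_le] at h1
    have h2 : ‖cl g - ⟨2, t⟩‖ ^ 2 = (3 / 2) ^ 2 + (g - t) ^ 2 := by
      rw [← Complex.normSq_eq_norm_sq, Complex.normSq_apply, sub_re, sub_im, cl_re', cl_im']
      ring
    have h3 : (8 / 5 : ℝ) ^ 2 < ‖cl g - ⟨2, t⟩‖ ^ 2 := by gcongr
    rw [h2] at h3
    have h4 : ‖z - cl g‖ ^ 2 = δ ^ 2 + (t - g) ^ 2 := by
      rw [← Complex.normSq_eq_norm_sq, Complex.normSq_apply, sub_re, sub_im, cl_re', cl_im', hzre, hzim]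
      ring
    by_contra hcon
    rw [not_le] at hcon
    have h5 : ‖z - cl g‖ ^ 2 < (1 / 2) ^ 2 := by
      have := norm_nonneg (z - cl g)
      gcongr
    nlinarith
  have hsplit : -(deriv riemannZeta z / riemannZeta z) + ∑ g ∈ S, (mz (cl g) : ℂ) / (z - cl g) =
      -(deriv riemannZeta z / riemannZeta z + 1 / (z - 1) - ∑ g ∈ T, (mz (cl g) : ℂ) / (z - cl g)) +
      1 / (z - 1) + ∑ g ∈ S \ T, (mz (cl g) : ℂ) / (z - cl g) -
      ∑ g ∈ T \ S, (mz (cl g) : ℂ) / (z - cl g) := by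
    have e1 := Finset.sum_sdiff_sub_sum_sdiff (s₁ := T) (s₂ := S) (f := fun g => (mz (cl g) : ℂ) / (z - cl g))
    linear_combination -e1
  rw [hsplit]
  have hb1 : ‖1 / (z - 1)‖ ≤ 4 := by
    rw [norm_div, norm_one, div_le_iff₀ (norm_pos_iff.2 (sub_ne_zero.2 hz1))]
    have h1 := Complex.abs_re_le_norm (z - 1)
    rw [sub_re, hzre, one_re] at h1
    have h2 : (1 / 4 : ℝ) ≤ |1 / 2 + δ - 1| := by
      rw [abs_of_nonpos (by linarith)]
      linarith
    linarith
  have hb2 : ‖∑ g ∈ S \ T, (mz (cl g) : ℂ) / (z - cl g)‖ ≤ ∑ g ∈ S, 2 * (mz (cl g) : ℝ) := by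
    refine (norm_sum_le _ _).trans ?_
    refine (Finset.sum_le_sum (g := fun g => 2 * (mz (cl g) : ℝ)) fun g hg => ?_).trans
      (Finset.sum_le_sum_of_subset_of_nonneg Finset.sdiff_subset fun _ _ _ => by positivity)
    rw [Finset.mem_sdiff] at hg
    have h1 := hfar g hg.1 hg.2
    rw [norm_div, Complex.norm_natCast, div_le_iff₀ (by linarith)]
    have h2 : (0 : ℝ) ≤ mz (cl g) := Nat.cast_nonneg _
    nlinarith
  have hb3 : ‖∑ g ∈ T \ S, (mz (cl g) : ℂ) / (z - cl g)‖ ≤ Nz S δ t := by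
    refine (norm_sum_le _ _).trans ?_
    refine le_trans (le_of_eq ?_) (sum_le_Nz S δ t (T \ S) (fun g hg => hTz g (Finset.mem_sdiff.1 hg).1)
      (fun g hg => (Finset.mem_sdiff.1 hg).2) (fun g hg => hTt g (Finset.mem_sdiff.1 hg).1))
    refine Finset.sum_congr rfl fun g _ => ?_
    rw [norm_div, Complex.norm_natCast]
    congr 2
    rw [hz]
    unfold cl
    push_cast
    ring
  have hell : Real.log (|t| + 3) = ell t := rfl
  have hl1 := one_le_ell t
  rw [hell]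
  have hSum : 0 ≤ ∑ g ∈ S, 2 * (mz (cl g) : ℝ) := by positivity
  have hSum2 : ∑ g ∈ S, 2 * (mz (cl g) : ℝ) ≤ (∑ g ∈ S, 2 * (mz (cl g) : ℝ)) * ell t :=
    le_mul_of_one_le_right hSum hl1
  rw [← norm_neg] at hmain
  have key : ∀ a b c d : ℂ, ‖a + b + c - d‖ ≤ ‖a‖ + ‖b‖ + ‖c‖ + ‖d‖ := fun a b c d => by
    have h1 := norm_sub_le (a + b + c) d
    have h2 := norm_add_le (a + b) c
    have h3 := norm_add_le a b
    linarith
  refine (key _ _ _ _).trans ?_
  have hK4 : K * ell t + 4 ≤ (K + 4) * ell t := by linarith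
  have e3 : (K + 4 + ∑ g ∈ S, 2 * (mz (cl g) : ℝ)) * ell t =
    (K + 4) * ell t + (∑ g ∈ S, 2 * (mz (cl g) : ℝ)) * ell t := by ring
  rw [e3]
  linarith

end Pool.Agent.H681.OE
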