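import Pool.Agent.H681.OE.All
import Pool.Graph.R_pool_sql_team_seeded_3997aac3.Q286.BD.Fin2

/-!
# Project OE: intrinsic asymptotic optimality, windows, single zeros (helper681)
-/

set_option autoImplicit false

namespace Pool.Agent.H681.OE

open Complex MeasureTheory Filter Topology Set
open Pool.Agent.Q286.BD (cl mz dif JJ difR JR DR CB sum_line summ_line tendsR)
open Pool.Agent.Q260.GM (ph)
open Pool.Agent.Q260.OE

/-! ## simple zeros -/

theorem simple_iff {g : ℝ} (hg : riemannZeta (cl g) = 0) : mz (cl g) = 1 ↔ deriv riemannZeta (cl g) ≠ 0 := by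
  have hne : cl g ≠ 1 := cl_ne_one g
  have han : AnalyticAt ℂ riemannZeta (cl g) := Pool.Agent.H575.BD.zeta_an hne
  constructor
  · intro h hd
    have hp : analyticOrderAt riemannZeta (cl g) = 1 := by
      unfold mz analyticOrderNatAt at h
      have htop : analyticOrderAt riemannZeta (cl g) ≠ ⊤ := by
        intro ht
        rw [ht] at h
        simp at h
      rw [← ENat.natCast_toNat htop, h]
      rfl
    have h1 := han.analyticOrderAt_eq_natCast (n := 1)
    rw [hp] at h1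
    obtain ⟨q, hq, hq0, hqe⟩ := h1.1 rfl
    have h2 : deriv riemannZeta (cl g) = q (cl g) := by
      have h3 : riemannZeta =ᶠ[𝓝 (cl g)] fun z => (z - cl g) * q z := by
        filter_upwards [hqe] with z hz
        rw [hz, pow_one, smul_eq_mul]
      rw [h3.deriv_eq]
      have h4 : HasDerivAt (fun z => (z - cl g) * q z) (1 * q (cl g) + (cl g - cl g) * deriv q (cl g)) (cl g) :=
        ((hasDerivAt_id (cl g)).sub_const (cl g)).mul hq.differentiableAt.hasDerivAt
      rw [h4.deriv]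
      ring
    rw [h2] at hd
    exact hq0 hd
  · intro h
    have h1 := han.analyticOrderAt_eq_one_of_zero_deriv_ne_zero hg h
    unfold mz analyticOrderNatAt
    rw [h1]
    rfl

theorem simp_iff : Simp ↔ ∀ t : ℝ, riemannZeta (cl t) = 0 → deriv riemannZeta (cl t) ≠ 0 := by
  constructor
  · intro h t ht
    exact (simple_iff ht).1 (h ⟨t, ht⟩)
  · intro h g
    exact (simple_iff g.2).2 (h g g.2)

/-! ## asymptotic optimality -/

theorem BB_eq (hRH : RiemannHypothesis) : BB = CB := sum_line hRH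

theorem DR_lim (hRH : RiemannHypothesis) {lam : ℕ → ℝ} (h : Tendsto lam atTop (𝓝[>] 0)) :
    Tendsto (fun j => DR (lam j) * Real.log (1 / lam j)) atTop (𝓝 BB) := by
  rw [BB_eq hRH]
  exact (tendsR Pool.Agent.H575.BD.up Pool.Agent.H575.BD.low Pool.Agent.H681.BD.lowR Pool.Agent.H575.BD.sum2 hRH).comp h

theorem BB_pos (hRH : RiemannHypothesis) : 0 < BB := (pos_t.2 hRH).1

theorem optR_of (hRH : RiemannHypothesis) {lam : ℕ → ℝ} {a : ℕ → (ℝ →₀ ℝ)} (h1 : Tendsto lam atTop (𝓝[>] 0))
    (h2 : ∀ᶠ j in atTop, ∀ θ ∈ (a j).support, lam j ≤ θ ∧ θ ≤ 1)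
    (h3 : Tendsto (fun j => JR (a j) / DR (lam j)) atTop (𝓝 1)) : OptR lam a := by
  refine ⟨h1, h2, ?_⟩
  have h4 := DR_lim hRH h1
  have h5 := h3.mul h4
  rw [one_mul] at h5
  refine h5.congr' ?_
  filter_upwards [h4.eventually_ne (BB_pos hRH).ne'] with j hj
  have hD : DR (lam j) ≠ 0 := left_ne_zero_of_mul hj
  field_simp

theorem optR_ratio (hRH : RiemannHypothesis) {lam : ℕ → ℝ} {a : ℕ → (ℝ →₀ ℝ)} (ho : OptR lam a) :
    Tendsto (fun j => JR (a j) / DR (lam j)) atTop (𝓝 1) := by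
  have h4 := DR_lim hRH ho.1
  have h5 := ho.2.2.div h4 (BB_pos hRH).ne'
  rw [div_self (BB_pos hRH).ne'] at h5
  refine h5.congr' ?_
  filter_upwards [(log_lam ho.1).eventually_gt_atTop 0] with j hj
  rw [Pi.div_apply, mul_div_mul_right _ _ hj.ne']

/-! ## windows of frequencies -/

/-- `∑ 2 m (m - 1) / (1/4 + g²)` over the ordinates in `(α, β)` -/
noncomputable def D2w (α β : ℝ) : ℝ := ∑' g : Go, if α < (g : ℝ) ∧ (g : ℝ) < β then
  2 * (mz (cl g) : ℝ) * ((mz (cl g) : ℝ) - 1) / (1 / 4 + (g : ℝ) ^ 2) else 0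

/-- the gap in a window of frequencies -/
noncomputable def winR (lam : ℝ) (a : ℝ →₀ ℝ) (α β : ℝ) : ℝ :=
  Real.log (1 / lam) * (1 / (2 * Real.pi) * ∫ t in α..β, ‖TT a t / cl t +
    (∫ w in (0 : ℝ)..(Real.log (1 / lam)), (ph w : ℂ) * cexp (-(cl t * w))) / (Real.log (1 / lam) : ℂ)‖ ^ 2)

theorem win_lim (hRH : RiemannHypothesis) {lam : ℕ → ℝ} {a : ℕ → (ℝ →₀ ℝ)} (ho : OptR lam a) {α β : ℝ} (hab : α < β)
    (hα : riemannZeta (cl α) ≠ 0) (hβ : riemannZeta (cl β) ≠ 0) :
    Tendsto (fun j => winR (lam j) (a j) α β) atTop (𝓝 (D2w α β)) := by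
  have h := a_FRW hRH _ _ (famR ho) 1 (-1) α β hab hα hβ
  have e : (∑' g : Go, if α < (g : ℝ) ∧ (g : ℝ) < β then
      (∫ x in (0 : ℝ)..1, (1 * (pm (mz (cl g))).eval x + (-1) * (mz (cl g) : ℝ)) ^ 2) / (1 / 4 + (g : ℝ) ^ 2) else 0) =
      D2w α β := by
    unfold D2w
    refine tsum_congr fun g => ?_
    split_ifs
    · congr 1
      rw [← (a_LEG (mz (cl g))).2.2.2.2.2]
      congr 1
      funext x
      ring
    · rfl
  rw [e] at h
  refine h.congr' ?_
  filter_upwards [afix_ev ho] with j hj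
  unfold winR
  rw [hj]
  congr 2
  refine intervalIntegral.integral_congr fun t _ => ?_
  show ‖_‖ ^ 2 = ‖_‖ ^ 2
  congr 2
  unfold PT
  push_cast
  ring

theorem D2w_zero (hRH : RiemannHypothesis) (α β : ℝ) :
    D2w α β = 0 ↔ ∀ g : Go, α < (g : ℝ) → (g : ℝ) < β → mz (cl g) = 1 := by
  have hp := pos_t.1
  have hs := summ_line hRH Pool.Agent.H575.BD.sum2
  have hnn : ∀ g : Go, 0 ≤ if α < (g : ℝ) ∧ (g : ℝ) < β then
      2 * (mz (cl g) : ℝ) * ((mz (cl g) : ℝ) - 1) / (1 / 4 + (g : ℝ) ^ 2) else 0 := fun g => by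
    have h1 : (1 : ℝ) ≤ mz (cl g) := by exact_mod_cast hp g
    have h2 : 0 ≤ (mz (cl g) : ℝ) - 1 := by linarith
    split_ifs
    · positivity
    · exact le_refl _
  have hsum : Summable (fun g : Go => if α < (g : ℝ) ∧ (g : ℝ) < β then
      2 * (mz (cl g) : ℝ) * ((mz (cl g) : ℝ) - 1) / (1 / 4 + (g : ℝ) ^ 2) else 0) := by
    refine Summable.of_nonneg_of_le hnn (fun g => ?_) (hs.mul_left 2)
    have h1 : (1 : ℝ) ≤ mz (cl g) := by exact_mod_cast hp g
    split_ifs
    · rw [← mul_div_assoc]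
      apply div_le_div_of_nonneg_right _ (by positivity)
      nlinarith
    · positivity
  constructor
  · intro h0 g hg1 hg2
    have h3 := hsum.hasSum
    unfold D2w at h0
    rw [h0, hasSum_zero_iff_of_nonneg hnn] at h3
    have h4 := congrFun h3 g
    simp only [Pi.zero_apply] at h4
    rw [if_pos ⟨hg1, hg2⟩] at h4
    have h5 : (0 : ℝ) < 1 / 4 + (g : ℝ) ^ 2 := by positivity
    have h6 := (div_eq_zero_iff.1 h4).resolve_right h5.ne'
    have h7 : (1 : ℝ) ≤ mz (cl g) := by exact_mod_cast hp g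
    have h9 : (mz (cl g) : ℝ) = 1 := by
      rcases mul_eq_zero.1 h6 with h | h
      · exfalso
        linarith
      · linarith
    exact_mod_cast h9
  · intro h
    unfold D2w
    have e : ∀ g : Go, (if α < (g : ℝ) ∧ (g : ℝ) < β then
        2 * (mz (cl g) : ℝ) * ((mz (cl g) : ℝ) - 1) / (1 / 4 + (g : ℝ) ^ 2) else 0) = 0 := by
      intro g
      split_ifs with h1
      · rw [h g h1.1 h1.2]
        simp
      · rfl
    simp only [e, tsum_zero]

theorem win_iff (hRH : RiemannHypothesis) {lam : ℕ → ℝ} {a : ℕ → (ℝ →₀ ℝ)} (ho : OptR lam a) {α β : ℝ} (hab : α < β)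
    (hα : riemannZeta (cl α) ≠ 0) (hβ : riemannZeta (cl β) ≠ 0) :
    (∀ t : ℝ, α < t → t < β → riemannZeta (cl t) = 0 → deriv riemannZeta (cl t) ≠ 0) ↔
      Tendsto (fun j => winR (lam j) (a j) α β) atTop (𝓝 0) := by
  have h := win_lim hRH ho hab hα hβ
  have h1 : (∀ t : ℝ, α < t → t < β → riemannZeta (cl t) = 0 → deriv riemannZeta (cl t) ≠ 0) ↔ D2w α β = 0 := by
    rw [D2w_zero hRH]
    constructor
    · intro hd g h1 h2
      exact (simple_iff g.2).2 (hd g h1 h2 g.2)
    · intro hm t h1 h2 ht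
      exact (simple_iff ht).1 (hm ⟨t, ht⟩ h1 h2)
  rw [h1]
  constructor
  · intro h0
    rw [h0] at h
    exact h
  · intro h0
    exact tendsto_nhds_unique h h0

/-! ## single zeros -/

theorem TT_cont (a : ℝ →₀ ℝ) : Continuous (TT a) := by
  have hcl : Continuous cl := by
    unfold cl
    fun_prop
  have hz : Continuous fun t : ℝ => riemannZeta (cl t) := by
    rw [continuous_iff_continuousAt]
    intro t
    exact ContinuousAt.comp (g := riemannZeta) (differentiableAt_riemannZeta (cl_ne_one t)).continuousAt hcl.continuousAt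
  have hcl0 : ∀ t : ℝ, cl t ≠ 0 := by
    intro t h
    have := congrArg Complex.re h
    rw [cl_re', zero_re] at this
    norm_num at this
  unfold TT
  refine continuous_const.add (hz.mul ?_)
  unfold Finsupp.sum
  refine continuous_finsetSum _ fun θ _ => continuous_const.mul ?_
  exact hcl.const_cpow (Or.inr hcl0)

theorem pro_iff (hRH : RiemannHypothesis) {lam : ℕ → ℝ} {a : ℕ → (ℝ →₀ ℝ)} (ho : OptR lam a) {g : ℝ}
    (hg : riemannZeta (cl g) = 0) (k : ℕ) :
    mz (cl g) = k ↔ ∀ R : ℝ, 0 < R → Tendsto (fun j => ∫ v in (-R)..R,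
      ‖TT (a j) (g + v / Real.log (1 / lam j)) - FF k v‖ ^ 2) atTop (𝓝 0) := by
  constructor
  · intro h R hR
    have h1 := proR_lim hRH ho a_PRO hg hR
    rw [h] at h1
    exact h1
  · intro h
    set m := mz (cl g) with hm
    have hF := a_FFB m
    have hF1 := a_FFB k
    have hval : ∀ R : ℝ, 0 < R → ∫ v in (-R)..R, ‖FF m v - FF k v‖ ^ 2 ≤ 0 := by
      intro R hR
      have h1 := proR_lim hRH ho a_PRO hg hR
      rw [← hm] at h1
      have h2 := (h1.const_mul 2).add ((h R hR).const_mul 2)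
      rw [mul_zero, add_zero] at h2
      refine ge_of_tendsto' h2 fun j => ?_
      have hc : Continuous fun v : ℝ => TT (a j) (g + v / Real.log (1 / lam j)) :=
        (TT_cont (a j)).comp (by fun_prop)
      have hc1 : Continuous fun v : ℝ => ‖TT (a j) (g + v / Real.log (1 / lam j)) - FF m v‖ ^ 2 :=
        ((hc.sub hF.1).norm).pow 2
      have hc2 : Continuous fun v : ℝ => ‖TT (a j) (g + v / Real.log (1 / lam j)) - FF k v‖ ^ 2 :=
        ((hc.sub hF1.1).norm).pow 2
      have hc3 : Continuous fun v : ℝ => ‖FF m v - FF k v‖ ^ 2 := ((hF.1.sub hF1.1).norm).pow 2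
      rw [← intervalIntegral.integral_const_mul, ← intervalIntegral.integral_const_mul,
        ← intervalIntegral.integral_add ((hc1.const_mul 2).intervalIntegrable _ _) ((hc2.const_mul 2).intervalIntegrable _ _)]
      refine intervalIntegral.integral_mono_on (by linarith) (hc3.intervalIntegrable _ _)
        (((hc1.const_mul 2).add (hc2.const_mul 2)).intervalIntegrable _ _) fun v _ => ?_
      set A := TT (a j) (g + v / Real.log (1 / lam j)) with hA
      have h3 : ‖FF m v - FF k v‖ ≤ ‖A - FF m v‖ + ‖A - FF k v‖ := by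
        calc ‖FF m v - FF k v‖ = ‖(A - FF k v) - (A - FF m v)‖ := by congr 1; ring
          _ ≤ ‖A - FF k v‖ + ‖A - FF m v‖ := norm_sub_le _ _
          _ = _ := add_comm _ _
      have h4 := norm_nonneg (FF m v - FF k v)
      nlinarith [sq_nonneg (‖A - FF m v‖ - ‖A - FF k v‖)]
    have heq : FF m = FF k := by
      funext v0
      by_contra hne
      have hR : 0 < |v0| + 1 := by positivity
      have h1 : 0 < ∫ v in (-(|v0| + 1))..(|v0| + 1), ‖FF m v - FF k v‖ ^ 2 := by
        have hc3 : Continuous fun v : ℝ => ‖FF m v - FF k v‖ ^ 2 := ((hF.1.sub hF1.1).norm).pow 2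
        refine intervalIntegral.integral_pos (by linarith) hc3.continuousOn (fun v _ => by positivity) ⟨v0, ?_, ?_⟩
        · have := neg_abs_le v0
          have := le_abs_self v0
          constructor <;> linarith
        · have : 0 < ‖FF m v0 - FF k v0‖ := norm_pos_iff.2 (sub_ne_zero.2 hne)
          positivity
      have h2 := hval _ hR
      linarith
    have h1 := hF.2.2.2
    have h2 := hF1.2.2.2
    rw [heq, h2] at h1
    have h3 : ((k : ℝ)) ^ 2 = (m : ℝ) ^ 2 := h1
    have h4 : (k : ℝ) = m := by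
      have h5 : (0 : ℝ) ≤ k := Nat.cast_nonneg k
      have h6 : (0 : ℝ) ≤ m := Nat.cast_nonneg m
      exact (pow_left_inj₀ h5 h6 two_ne_zero).1 h3
    exact_mod_cast h4.symm

end Pool.Agent.H681.OE
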