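import Pool.Graph.R_seed8.W66.ZB
import Pool.Graph.R_pool_sql_team_seeded_3997aac3.Q260.OE.Stm
import Pool.Agent.H575.BD.Cnt

/-!
# Partial fractions of the logarithmic derivative near a point, with exact multiplicities (helper681)

After `Pool.Agent.W66.landau_re` (library), which does not record the multiplicities.
-/

set_option autoImplicit false

namespace Pool.Agent.H681.OE

open Complex Filter Topology Set MeasureTheory Metric
open H370 H370.Loc
open Pool.Agent.W66 (Pf_logDeriv_eq Z1 Z1_diff Z1_eq Z1_one Z1_ne_zero Z1_ball ell one_le_ell)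
open Pool.Agent.Q286.BD (cl mz)

/-- the multiplicities of the extracted zeros -/
theorem count_eq {f g : ℂ → ℂ} {s : Multiset ℂ} {ρ : ℂ} (hf : AnalyticAt ℂ f ρ)
    (hg : AnalyticAt ℂ g ρ) (hg0 : g ρ ≠ 0) (h : ∀ z, f z = Pf s z * g z) :
    s.count ρ = analyticOrderNatAt f ρ := by
  classical
  have h1 : s = Multiset.replicate (s.count ρ) ρ + s.filter (fun x => ¬ (ρ = x)) := by
    rw [← Multiset.filter_eq]
    exact (Multiset.filter_add_not _ s).symm
  have h2 : ∀ z, Pf s z = (z - ρ) ^ (s.count ρ) * Pf (s.filter (fun x => ¬ (ρ = x))) z := by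
    intro z
    conv_lhs => rw [h1]
    unfold Pf
    rw [Multiset.map_add, Multiset.prod_add, Multiset.map_replicate, Multiset.prod_replicate]
  have h3 : analyticOrderAt f ρ = (s.count ρ : ℕ∞) := by
    rw [hf.analyticOrderAt_eq_natCast]
    refine ⟨fun z => Pf (s.filter (fun x => ¬ (ρ = x))) z * g z, ((Pf_diff _).analyticAt ρ).mul hg, ?_, ?_⟩
    · refine mul_ne_zero (Pf_ne_zero fun ρ' h' => ?_) hg0
      exact (Multiset.mem_filter.1 h').2
    · filter_upwards with z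
      rw [h z, h2 z, smul_eq_mul, mul_assoc]
  unfold analyticOrderNatAt
  rw [h3]
  rfl

/-- the logarithmic derivative near a point, with its zeros and their multiplicities -/
theorem landau_mult {f : ℂ → ℂ} {c : ℂ} {r r1 r2 R M : ℝ} (hr2 : 0 < r2) (h21 : r2 < r1)
    (h1r : r1 < r) (hrR : r < R) (hRr : R ≤ 2 * r) (hM : 1 ≤ M) (hMf : ‖f c‖ ≤ M)
    (hf : AnalyticOnNhd ℂ f (closedBall c R)) (hc : f c ≠ 0)
    (hb : ∀ z ∈ closedBall c R, ‖f z‖ ≤ M) :
    ∃ s : Multiset ℂ, (∀ ρ ∈ s, ρ ∈ closedBall c r ∧ f ρ = 0) ∧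
      (∀ ρ ∈ closedBall c r, s.count ρ = analyticOrderNatAt f ρ) ∧
      (∀ ρ ∈ closedBall c r, f ρ = 0 → ρ ∈ s) ∧
      ∀ z ∈ closedBall c r2, (∀ ρ ∈ s, z ≠ ρ) →
        ‖deriv f z / f z - (s.map (fun ρ => 1 / (z - ρ))).sum‖ ≤
        2 * (Real.log (M / ‖f c‖) + Real.log (M / ‖f c‖) / Real.log (R / r) *
          Real.log (r / (R - r)) + 1) * r1 / (r - r1) / (r1 - r2) := by
  have hr : 0 < r := by linarith
  have hR : 0 < R := by linarith
  obtain ⟨s, g, hs, hg, hfg, hg0, hcard⟩ := extract hr hrR hM hf hc hb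
  refine ⟨s, hs, ?_, ?_, ?_⟩
  · intro ρ hρ
    have hρR : ρ ∈ closedBall c R := closedBall_subset_closedBall hrR.le hρ
    exact count_eq (hf ρ hρR) (hg ρ hρR) (hg0 ρ hρ) hfg
  · intro ρ hρ h0
    rw [hfg ρ] at h0
    by_contra hcon
    have h1 : Pf s ρ ≠ 0 := Pf_ne_zero fun ρ' h' he => hcon (he ▸ h')
    exact mul_ne_zero h1 (hg0 ρ hρ) h0
  intro z hz hzs
  have hzr : z ∈ closedBall c r := closedBall_subset_closedBall (by linarith) hz
  have hzR : z ∈ closedBall c R := closedBall_subset_closedBall hrR.le hzr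
  have hcr : c ∈ closedBall c r := mem_closedBall_self hr.le
  have hcR : c ∈ closedBall c R := mem_closedBall_self hR.le
  have hPz : Pf s z ≠ 0 := Pf_ne_zero hzs
  have hfz : f z ≠ 0 := by rw [hfg z]; exact mul_ne_zero hPz (hg0 z hzr)
  have hfc : 0 < ‖f c‖ := norm_pos_iff.2 hc
  set n := Multiset.card s with hn
  have hlogM : 0 ≤ Real.log (M / ‖f c‖) := Real.log_nonneg (by rw [le_div_iff₀ hfc]; linarith)
  have hRr0 : 0 < R - r := by linarith
  have hq : 1 ≤ r / (R - r) := by rw [le_div_iff₀ hRr0]; linarith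
  have hlogq : 0 ≤ Real.log (r / (R - r)) := Real.log_nonneg hq
  -- bounds for g
  have hgsphere : ∀ w ∈ sphere c R, ‖g w‖ ≤ M / (R - r) ^ n := by
    intro w hw
    have hwR := sphere_subset_closedBall hw
    have h1 : (R - r) ^ n ≤ ‖Pf s w‖ := Pf_norm_ge hRr0.le fun ρ hρ => by
      have h2 := (hs ρ hρ).1
      rw [mem_closedBall, dist_eq_norm] at h2
      rw [mem_sphere, dist_eq_norm] at hw
      have h3 : ‖w - c‖ ≤ ‖w - ρ‖ + ‖ρ - c‖ := by
        calc ‖w - c‖ = ‖(w - ρ) + (ρ - c)‖ := by congr 1; ring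
          _ ≤ _ := norm_add_le _ _
      linarith
    rw [le_div_iff₀ (by positivity)]
    calc ‖g w‖ * (R - r) ^ n ≤ ‖g w‖ * ‖Pf s w‖ := mul_le_mul_of_nonneg_left h1 (norm_nonneg _)
      _ = ‖f w‖ := by rw [hfg w, norm_mul, mul_comm]
      _ ≤ M := hb w hwR
  have hgball : ∀ w ∈ closedBall c R, ‖g w‖ ≤ M / (R - r) ^ n := by
    intro w hw
    refine Complex.norm_le_of_forall_mem_frontier_norm_le (U := ball c R) isBounded_ball ?_ ?_ ?_
    · apply DifferentiableOn.diffContOnCl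
      rw [closure_ball c hR.ne']
      exact fun x hx => (hg x hx).differentiableAt.differentiableWithinAt
    · intro x hx
      rw [frontier_ball c hR.ne'] at hx
      exact hgsphere x hx
    · rwa [closure_ball c hR.ne']
  have hgc : ‖f c‖ / r ^ n ≤ ‖g c‖ := by
    rw [div_le_iff₀ (by positivity)]
    have h1 : ‖Pf s c‖ ≤ r ^ n := Pf_norm_le fun ρ hρ => by
      have h2 := (hs ρ hρ).1
      rw [mem_closedBall, dist_eq_norm, norm_sub_rev] at h2
      exact h2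
    calc ‖f c‖ = ‖g c‖ * ‖Pf s c‖ := by rw [hfg c, norm_mul, mul_comm]
      _ ≤ ‖g c‖ * r ^ n := mul_le_mul_of_nonneg_left h1 (norm_nonneg _)
  set B : ℝ := Real.log (M / ‖f c‖) + n * Real.log (r / (R - r)) with hB
  have hB0 : 0 ≤ B := by positivity
  have hexpB : Real.exp B = M / ‖f c‖ * (r / (R - r)) ^ n := by
    rw [hB, Real.exp_add, Real.exp_log (by positivity), Real.exp_nat_mul,
      Real.exp_log (by positivity)]
  have hgb : ∀ w ∈ closedBall c r, ‖g w‖ ≤ Real.exp B * ‖g c‖ := by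
    intro w hw
    refine (hgball w (closedBall_subset_closedBall hrR.le hw)).trans ?_
    rw [hexpB]
    calc M / (R - r) ^ n = M / ‖f c‖ * (r / (R - r)) ^ n * (‖f c‖ / r ^ n) := by
          rw [div_pow]; field_simp
      _ ≤ _ := mul_le_mul_of_nonneg_left hgc (by positivity)
  have hlg := logDeriv_zero_free hr2 h21 h1r hB0
    (hg.mono (closedBall_subset_closedBall hrR.le)) hg0 hgb hz
  have heq : deriv f z / f z = logDeriv (Pf s) z + logDeriv g z := by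
    have h1 : f = fun w => Pf s w * g w := funext hfg
    rw [← logDeriv_apply]
    conv_lhs => rw [h1]
    exact logDeriv_mul z hPz (hg0 z hzr) (Pf_diff s z) (hg z hzR).differentiableAt
  rw [heq, Pf_logDeriv_eq hzs, add_sub_cancel_left]
  refine hlg.trans ?_
  have h8 : B ≤ Real.log (M / ‖f c‖) + Real.log (M / ‖f c‖) / Real.log (R / r) *
        Real.log (r / (R - r)) := by
    rw [hB]
    have := mul_le_mul_of_nonneg_right hcard hlogq
    linarith
  have h9 : 0 < r - r1 := by linarith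
  have h10 : 0 < r1 - r2 := by linarith
  have h11 : 0 < r1 := by linarith
  gcongr

/-- the orders of `(s - 1) ζ(s)` and `ζ` -/
theorem order_Z1 {s : ℂ} (hs : s ≠ 1) : analyticOrderNatAt Z1 s = mz s := by
  have hz : AnalyticAt ℂ riemannZeta s := Pool.Agent.H575.BD.zeta_an hs
  have hl : AnalyticAt ℂ (fun z : ℂ => z - 1) s := by fun_prop
  have e1 : Z1 =ᶠ[𝓝 s] (fun z => z - 1) * riemannZeta := by
    filter_upwards [isOpen_ne.mem_nhds hs] with z hz1
    rw [Z1_eq hz1]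
    rfl
  unfold mz analyticOrderNatAt
  rw [analyticOrderAt_congr e1, analyticOrderAt_mul hl hz,
    hl.analyticOrderAt_eq_zero.2 (sub_ne_zero.2 hs), zero_add]

/-- the logarithmic derivative of `(s - 1) ζ(s)` -/
theorem ld_Z1 {s : ℂ} (hs : s ≠ 1) (hz : riemannZeta s ≠ 0) :
    deriv Z1 s / Z1 s = deriv riemannZeta s / riemannZeta s + 1 / (s - 1) := by
  have e1 : Z1 =ᶠ[𝓝 s] fun z => (z - 1) * riemannZeta z := by
    filter_upwards [isOpen_ne.mem_nhds hs] with z hz1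
    exact Z1_eq hz1
  have h1 : s - 1 ≠ 0 := sub_ne_zero.2 hs
  rw [e1.deriv_eq, Z1_eq hs, deriv_fun_mul (by fun_prop) (differentiableAt_riemannZeta hs)]
  have h2 : deriv (fun z : ℂ => z - 1) s = 1 := by
    rw [deriv_sub_const, deriv_id'']
  rw [h2]
  field_simp
  ring

/-- **partial fractions of `(s-1) ζ(s)` near `2 + it`** -/
theorem pf_Z1 : ∃ K : ℝ, 0 < K ∧ ∀ t : ℝ, ∃ s : Multiset ℂ,
    (∀ ρ ∈ s, ρ ∈ closedBall (⟨2, t⟩ : ℂ) (8 / 5) ∧ Z1 ρ = 0) ∧
    (∀ ρ ∈ closedBall (⟨2, t⟩ : ℂ) (8 / 5), s.count ρ = analyticOrderNatAt Z1 ρ) ∧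
    ∀ z ∈ closedBall (⟨2, t⟩ : ℂ) (3 / 2), (∀ ρ ∈ s, z ≠ ρ) →
      ‖deriv Z1 z / Z1 z - (s.map (fun ρ => 1 / (z - ρ))).sum‖ ≤ K * ell t := by
  obtain ⟨K0, hK0, hball⟩ := Z1_ball
  set K1 : ℝ := 2 * (K0 + K0 / Real.log (7 / 4 / (8 / 5)) * Real.log (8 / 5 / (7 / 4 - 8 / 5)) + 1) *
    (31 / 20) / (8 / 5 - 31 / 20) / (31 / 20 - 3 / 2) with hK1
  have hl1 : 0 < Real.log (7 / 4 / (8 / 5)) := Real.log_pos (by norm_num)
  have hl2 : 0 < Real.log (8 / 5 / (7 / 4 - 8 / 5)) := Real.log_pos (by norm_num)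
  have h3 : (0 : ℝ) < 8 / 5 - 31 / 20 := by norm_num
  have h4 : (0 : ℝ) < 31 / 20 - 3 / 2 := by norm_num
  have hK1pos : 0 < K1 := by
    rw [hK1]
    have : 0 < K0 / Real.log (7 / 4 / (8 / 5)) * Real.log (8 / 5 / (7 / 4 - 8 / 5)) := by positivity
    positivity
  refine ⟨K1, hK1pos, fun t => ?_⟩
  obtain ⟨M, hM1, hMb, hl0, hlK⟩ := hball t
  have hc : Z1 ⟨2, t⟩ ≠ 0 := Z1_ne_zero (by norm_num)
  have hcb : ‖Z1 ⟨2, t⟩‖ ≤ M := hMb _ (mem_closedBall_self (by norm_num))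
  obtain ⟨s, hs1, hs2, hs3, hs4⟩ := landau_mult (f := Z1) (c := ⟨2, t⟩) (r := 8 / 5) (r1 := 31 / 20)
    (r2 := 3 / 2) (R := 7 / 4) (M := M) (by norm_num) (by norm_num) (by norm_num) (by norm_num)
    (by norm_num) hM1 hcb (fun z _ => Z1_diff.analyticAt z) hc hMb
  have hell := one_le_ell t
  have hbd : 2 * (Real.log (M / ‖Z1 ⟨2, t⟩‖) + Real.log (M / ‖Z1 ⟨2, t⟩‖) /
      Real.log (7 / 4 / (8 / 5)) * Real.log (8 / 5 / (7 / 4 - 8 / 5)) + 1) * (31 / 20) /
      (8 / 5 - 31 / 20) / (31 / 20 - 3 / 2) ≤ K1 * ell t := by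
    have e1 : Real.log (M / ‖Z1 ⟨2, t⟩‖) + Real.log (M / ‖Z1 ⟨2, t⟩‖) /
      Real.log (7 / 4 / (8 / 5)) * Real.log (8 / 5 / (7 / 4 - 8 / 5)) + 1 ≤
      (K0 + K0 / Real.log (7 / 4 / (8 / 5)) * Real.log (8 / 5 / (7 / 4 - 8 / 5)) + 1) * ell t := by
      have e2 : Real.log (M / ‖Z1 ⟨2, t⟩‖) /
        Real.log (7 / 4 / (8 / 5)) * Real.log (8 / 5 / (7 / 4 - 8 / 5)) ≤
        (K0 * ell t) / Real.log (7 / 4 / (8 / 5)) * Real.log (8 / 5 / (7 / 4 - 8 / 5)) := by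
        gcongr
      have e3 : (K0 * ell t) / Real.log (7 / 4 / (8 / 5)) * Real.log (8 / 5 / (7 / 4 - 8 / 5)) =
        K0 / Real.log (7 / 4 / (8 / 5)) * Real.log (8 / 5 / (7 / 4 - 8 / 5)) * ell t := by ring
      rw [e3] at e2
      nlinarith
    calc _ ≤ 2 * ((K0 + K0 / Real.log (7 / 4 / (8 / 5)) * Real.log (8 / 5 / (7 / 4 - 8 / 5)) + 1) *
        ell t) * (31 / 20) / (8 / 5 - 31 / 20) / (31 / 20 - 3 / 2) := by gcongr
      _ = K1 * ell t := by rw [hK1]; ring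
  exact ⟨s, hs1, hs2, fun z hz hzs => (hs4 z hz hzs).trans hbd⟩

end Pool.Agent.H681.OE
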